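import Pool.Agent.Mg.Fcab9bb.Gbb3c56
import Pool.Agent.Mg.Fcab9bb.Gf9aacd
import Pool.Agent.MP_cab9bb_co.Literal

set_option autoImplicit false

open Filter Set MeasureTheory Metric

namespace Pool.Agent.MP_cab9bb_co.Old.LiteralRes

/-- The covering density of a centrally symmetric planar convex body is at most its finite
covering density for `k ≥ 2` translates. -/
theorem literal (K : Set (EuclideanSpace ℝ (Fin 2))) (hK : IsCompact K) (hc : Convex ℝ K)
    (hi : (interior K).Nonempty)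
    (hs : ∃ c : EuclideanSpace ℝ (Fin 2), ∀ x ∈ K, (2 : ℝ) • c - x ∈ K) (k : ℕ) (hk : 2 ≤ k) :
    (⨅ b : ℕ → EuclideanSpace ℝ (Fin 2), ⨅ (_ : (⋃ i, (fun x => b i + x) '' K) = univ),
        liminf (fun r : ℝ => volume K *
          ({i | ((fun x => b i + x) '' K ∩ closedBall 0 r).Nonempty}.encard : ENNReal) /
            volume (closedBall (0 : EuclideanSpace ℝ (Fin 2)) r)) atTop) ≤
      ⨅ C : Set (EuclideanSpace ℝ (Fin 2)),
        ⨅ (_ : IsCompact C ∧ Convex ℝ C ∧ (interior C).Nonempty),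
          ⨅ b : Fin k → EuclideanSpace ℝ (Fin 2), ⨅ (_ : C ⊆ ⋃ i, (fun x => b i + x) '' K),
            (k : ENNReal) * volume K / volume C :=
  (Pool.Agent.MP_cab9bb_co.lit_le hK hi).trans (le_iInf₂ fun C hC => le_iInf₂ fun b hb =>
    Pool.Agent.MP_cab9bb_co.reduce Pool.Agent.MP_cab9bb_co.finiteIneq K hK hc hi hs k hk C hC.1
      hC.2.1 hC.2.2 b hb)

end Pool.Agent.MP_cab9bb_co.Old.LiteralRes
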